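import Pool.Agent.U552.BP.Fin

set_option autoImplicit false

/-!
# Complex structures on two-step nilmanifolds whose commutator forms are block diagonalizable

Let `G` be a simply connected two-step nilpotent Lie group of even dimension and let `Z` be a central
subgroup of dimension `2m` which contains the commutator group, such that `G / Z` has dimension `2n`.
If `Z` is identified with `ℂ ^ m`, then in exponential coordinates `G` is the group `ℝ ^ (2n) × ℂ ^ m`
with the product `(u, z) (u', z') = (u + u', z + z' + (1/2) (uᵀ S_l u')_l)` (`mul S`), where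
`S = (S₁, …, S_m)` are `m` complex alternating matrices of size `2n`.

* Assume that `S₁, …, S_m` are simultaneously congruent over `ℂ` to block diagonal matrices with
  blocks of size `2`. Then the group has global smooth coordinates with values in `ℂ ^ (n + m)` in
  which all left translations are complex affine maps (so it has a left-invariant complex structure),
  and every smooth manifold which is a quotient of the group by left translations, for example every
  compact nilmanifold, carries a complex structure.

* The assumption always holds for `m = 1`: every two-step nilpotent group with `dim [G, G] ≤ 2` has a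
  left-invariant complex structure, if its dimension is even.

* For `m = 2` it holds if `S₁` is invertible and `S₁⁻¹ S₂` is diagonalizable. This is the generic
  case, so a generic two-step nilpotent Lie group with `dim [G, G] = 4` and `dim G` even has a
  left-invariant complex structure. (For `m ≥ 3` and `n ≥ 4` generic matrices `S₁, …, S_m` do not even
  have a common isotropic subspace of dimension `n`.)

Idea of the proof. Let `ℂ ^ (2n) = ⨁ W_i` be the decomposition into planes. One needs a subspace `P`
on which all `S_l` vanish, with `ℂ ^ (2n) = P ⊕ conj P`. We take `P` spanned by vectors `w_i ∈ W_i`.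
By Rado's theorem on independent transversals (for subspaces) there are `w_i ∈ W_i`, `u_i ∈ conj W_i`
which together form a basis, and a polarization argument, one index at a time, gives such a basis with
`u_i = conj w_i`.
-/

namespace Pool.Agent.Results.MP_1d980c_gt.BlockPencils

open Pool.Agent.U552.BP Matrix
open scoped Manifold ContDiff

/-- The smooth manifold `M` carries a complex structure of dimension `k`: it is diffeomorphic to a
complex manifold. -/
def CarriesComplexStructure {E K : Type} [NormedAddCommGroup E] [NormedSpace ℝ E]
    [TopologicalSpace K] (I : ModelWithCorners ℝ E K) (M : Type) [TopologicalSpace M]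
    [ChartedSpace K M] (k : ℕ) : Prop :=
  ∃ (C : Type) (_ : TopologicalSpace C) (_ : ChartedSpace (EuclideanSpace ℂ (Fin k)) C),
    IsManifold 𝓘(ℂ, EuclideanSpace ℂ (Fin k)) ∞ C ∧
    Nonempty (Diffeomorph I 𝓘(ℝ, EuclideanSpace ℂ (Fin k)) M C ∞)

/-- `π : V → M` is the quotient map by the left translations `x ↦ γ * x` with the elements of `Γ`: a
surjective local diffeomorphism whose fibres are the orbits. -/
def IsQuotient {V E K M : Type} [NormedAddCommGroup V] [NormedSpace ℝ V] [NormedAddCommGroup E]
    [NormedSpace ℝ E] [TopologicalSpace K] [TopologicalSpace M] [ChartedSpace K M]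
    (I : ModelWithCorners ℝ E K) (mul : V → V → V) (Γ : Set V) (π : V → M) : Prop :=
  Function.Surjective π ∧ IsLocalDiffeomorph 𝓘(ℝ, V) I ∞ π ∧
    ∀ x y, π x = π y ↔ ∃ γ ∈ Γ, mul γ x = y

/-- The group `V` has global smooth coordinates with values in `ℂ ^ k` in which all left translations
are complex affine maps. -/
def ComplexAffineCoordinates {V : Type} [NormedAddCommGroup V] [NormedSpace ℝ V]
    (mul : V → V → V) (k : ℕ) : Prop :=
  ∃ Φ : V ≃ₜ EuclideanSpace ℂ (Fin k), ContDiff ℝ ∞ Φ ∧ ContDiff ℝ ∞ Φ.symm ∧
    ∀ g, ∃ (c : EuclideanSpace ℂ (Fin k))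
      (L : EuclideanSpace ℂ (Fin k) →L[ℂ] EuclideanSpace ℂ (Fin k)),
      ∀ z, Φ (mul g (Φ.symm z)) = c + L z

/-- The matrix `A` is diagonalizable over `ℂ`. -/
def Diagonalizable {N : ℕ} (A : Matrix (Fin N) (Fin N) ℂ) : Prop :=
  ∃ (P : Matrix (Fin N) (Fin N) ℂ) (d : Fin N → ℂ), IsUnit P ∧ A * P = P * diagonal d

theorem result (n : ℕ) :
    (∀ (m : ℕ) (S : Forms n m), Alternating S → BlockDiagonalizable S →
      ComplexAffineCoordinates (mul S) (n + m) ∧
      ∀ (M : Type) [TopologicalSpace M] [ChartedSpace (EuclideanSpace ℝ (Fin (2 * (n + m)))) M]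
        [IsManifold (𝓡 (2 * (n + m))) ∞ M] (Γ : Set ((Fin (2 * n) → ℝ) × (Fin m → ℂ)))
        (π : (Fin (2 * n) → ℝ) × (Fin m → ℂ) → M),
        IsQuotient (𝓡 (2 * (n + m))) (mul S) Γ π →
        CarriesComplexStructure (𝓡 (2 * (n + m))) M (n + m)) ∧
    (∀ S : Forms n 1, Alternating S → BlockDiagonalizable S) ∧
    (∀ S : Forms n 2, Alternating S → IsUnit (S 0) → Diagonalizable ((S 0)⁻¹ * S 1) →
      BlockDiagonalizable S) := by
  refine ⟨?_, ?_, ?_⟩
  · intro m S hS hB
    refine ⟨coords hS hB, ?_⟩
    intro M _ _ _ Γ π ⟨hs, hl, hπ⟩
    exact quot hS hB Γ π hs hl hπ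
  · intro S hS
    exact block_one hS
  · rintro S hS h0 ⟨P, d, hP, hPd⟩
    exact block_two hS h0 P d hP hPd

end Pool.Agent.Results.MP_1d980c_gt.BlockPencils
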