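import Pool.Agent.U552.NP.Fin

set_option autoImplicit false

/-!
# Complex structures on products of nilmanifolds

A graded group (`GradedGroup N`, in `Pool.Agent.U552.NP.Defs`) is `ℝ ^ N` with a polynomial group law
with neutral element `0` and polynomial inversion, such that for some weights `w_i ≥ 1` the dilations
`x ↦ (r ^ w₁ x₁, …, r ^ w_N x_N)` are compatible with the product. In exponential coordinates every
simply connected Lie group whose Lie algebra is positively graded is of this form (for example all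
simply connected two-step nilpotent groups, all Carnot groups, all nilpotent groups of dimension at
most six). The polynomials also define a group law on `ℂ ^ N`, the complexification.

Let `G` and `H` be graded groups of dimension `N` whose complexifications are isomorphic, by a linear
map which commutes with the dilations (for example `G = H`).

* The group `G × H` has a global smooth system of coordinates with values in `ℂ ^ N` in which all left
  translations are holomorphic.

* Let `M` be a smooth manifold of dimension `2N` which is a quotient of `G × H` by left translations,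
  for example a compact nilmanifold. Then `M` carries a complex structure.

* Let `M₁` and `M₂` be smooth manifolds which are quotients of `G` and of `H` by left translations,
  for example compact nilmanifolds. Then `M₁ × M₂` carries a complex structure. So `M × M` carries a
  complex structure for every compact nilmanifold `M`, of any dimension and step, with a positively
  graded Lie algebra. (Most such groups `G` of even dimension have no left-invariant complex
  structure, for example the four-dimensional filiform group.)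

Idea of the proof. Let `δ_a` be the dilation of the complexified group by a complex number `a` and
let `T` be the isomorphism. The coordinates are `(x, y) ↦ y · T (δ_a x)⁻¹`. The left translation by
`(g, h)` becomes `ζ ↦ h · ζ · T (δ_a g)⁻¹`, which is holomorphic. The map is injective if `T δ_a`
maps no real vector `s ≠ 0` to a real vector, which holds for suitable `a`; under the same condition
its derivative at the neutral element is bijective, and so its image is a neighbourhood of `0`. The
image is also invariant under the real dilations, so it is everything.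
-/

namespace Pool.Agent.Results.MP_1d980c_gt.ProductsOfNilmanifolds

open Pool.Agent.U552.NP
open scoped Manifold ContDiff

/-- The smooth manifold `M` carries a complex structure of dimension `k`: it is diffeomorphic to a
complex manifold. -/
def CarriesComplexStructure {E K : Type} [NormedAddCommGroup E] [NormedSpace ℝ E]
    [TopologicalSpace K] (I : ModelWithCorners ℝ E K) (M : Type) [TopologicalSpace M]
    [ChartedSpace K M] (k : ℕ) : Prop :=
  ∃ (C : Type) (_ : TopologicalSpace C) (_ : ChartedSpace (EuclideanSpace ℂ (Fin k)) C),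
    IsManifold 𝓘(ℂ, EuclideanSpace ℂ (Fin k)) ∞ C ∧
    Nonempty (Diffeomorph I 𝓘(ℝ, EuclideanSpace ℂ (Fin k)) M C ∞)

/-- `π : V → M` is the quotient map by the left translations `x ↦ γ * x` with the elements of `Γ`: a
surjective local diffeomorphism whose fibres are the orbits. -/
def IsQuotient {V E K M : Type} [NormedAddCommGroup V] [NormedSpace ℝ V] [NormedAddCommGroup E]
    [NormedSpace ℝ E] [TopologicalSpace K] [TopologicalSpace M] [ChartedSpace K M]
    (I : ModelWithCorners ℝ E K) (mul : V → V → V) (Γ : Set V) (π : V → M) : Prop :=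
  Function.Surjective π ∧ IsLocalDiffeomorph 𝓘(ℝ, V) I ∞ π ∧
    ∀ x y, π x = π y ↔ ∃ γ ∈ Γ, mul γ x = y

/-- The group `V` has global smooth coordinates with values in `ℂ ^ k` in which all left translations
are holomorphic. -/
def HolomorphicCoordinates {V : Type} [NormedAddCommGroup V] [NormedSpace ℝ V] (mul : V → V → V)
    (k : ℕ) : Prop :=
  ∃ Φ : V ≃ₜ EuclideanSpace ℂ (Fin k), ContDiff ℝ ∞ Φ ∧ ContDiff ℝ ∞ Φ.symm ∧
    ∀ g, ContDiff ℂ ∞ (fun z => Φ (mul g (Φ.symm z)))

/-- `T` is an isomorphism of the complexified groups and commutes with the real dilations. -/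
def IsComplexIso {N : ℕ} (G H : GradedGroup N) (T : (Fin N → ℂ) ≃ₗ[ℂ] (Fin N → ℂ)) : Prop :=
  (∀ z w, T (G.mul z w) = H.mul (T z) (T w)) ∧
    ∀ (r : ℝ) (z : Fin N → ℂ), T (dil G.wt (r : ℂ) z) = dil H.wt (r : ℂ) (T z)

/-- The product of the group `G × H`. -/
noncomputable def prodMul {N : ℕ} (G H : GradedGroup N) (g p : (Fin N → ℝ) × (Fin N → ℝ)) :
    (Fin N → ℝ) × (Fin N → ℝ) :=
  (G.mul g.1 p.1, H.mul g.2 p.2)

theorem result (N : ℕ) (G H : GradedGroup N) (T : (Fin N → ℂ) ≃ₗ[ℂ] (Fin N → ℂ))
    (hT : IsComplexIso G H T) :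
    HolomorphicCoordinates (prodMul G H) N ∧
    (∀ (M : Type) [TopologicalSpace M] [ChartedSpace (EuclideanSpace ℝ (Fin (2 * N))) M]
      [IsManifold (𝓡 (2 * N)) ∞ M] (Γ : Set ((Fin N → ℝ) × (Fin N → ℝ)))
      (π : (Fin N → ℝ) × (Fin N → ℝ) → M), IsQuotient (𝓡 (2 * N)) (prodMul G H) Γ π →
      CarriesComplexStructure (𝓡 (2 * N)) M N) ∧
    (∀ (M₁ M₂ : Type) [TopologicalSpace M₁] [ChartedSpace (EuclideanSpace ℝ (Fin N)) M₁]
      [IsManifold (𝓡 N) ∞ M₁] [TopologicalSpace M₂] [ChartedSpace (EuclideanSpace ℝ (Fin N)) M₂]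
      [IsManifold (𝓡 N) ∞ M₂] (Γ₁ Γ₂ : Set (Fin N → ℝ)) (π₁ : (Fin N → ℝ) → M₁)
      (π₂ : (Fin N → ℝ) → M₂), IsQuotient (𝓡 N) G.mul Γ₁ π₁ → IsQuotient (𝓡 N) H.mul Γ₂ π₂ →
      CarriesComplexStructure ((𝓡 N).prod (𝓡 N)) (M₁ × M₂) N) := by
  refine ⟨coords T hT.1 hT.2, ?_, ?_⟩
  · intro M _ _ _ Γ π ⟨hs, hl, hπ⟩
    exact quot T hT.1 hT.2 Γ π hs hl hπ
  · intro M₁ M₂ _ _ _ _ _ _ Γ₁ Γ₂ π₁ π₂ ⟨hs₁, hl₁, hπ₁⟩ ⟨hs₂, hl₂, hπ₂⟩
    refine quot T hT.1 hT.2 (Γ₁ ×ˢ Γ₂) (Prod.map π₁ π₂) (hs₁.prodMap hs₂)
      (isLocalDiffeomorph_prod hl₁ hl₂) ?_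
    rintro ⟨x₁, x₂⟩ ⟨y₁, y₂⟩
    constructor
    · intro h
      have h1 := congrArg Prod.fst h
      have h2 := congrArg Prod.snd h
      obtain ⟨γ₁, hγ₁, e₁⟩ := (hπ₁ x₁ y₁).1 h1
      obtain ⟨γ₂, hγ₂, e₂⟩ := (hπ₂ x₂ y₂).1 h2
      exact ⟨(γ₁, γ₂), ⟨hγ₁, hγ₂⟩, Prod.ext e₁ e₂⟩
    · rintro ⟨⟨γ₁, γ₂⟩, ⟨hγ₁, hγ₂⟩, e⟩
      exact Prod.ext ((hπ₁ x₁ y₁).2 ⟨γ₁, hγ₁, congrArg Prod.fst e⟩)
        ((hπ₂ x₂ y₂).2 ⟨γ₂, hγ₂, congrArg Prod.snd e⟩)

end Pool.Agent.Results.MP_1d980c_gt.ProductsOfNilmanifolds
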